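import Mathlib

/-!
# Bond percolation and the number of walks
-/

namespace Pool.Agent.V11322.SA

open MeasureTheory ProbabilityTheory
open scoped NNReal ENNReal

variable {W : Type} (H : SimpleGraph W)

/-- Bernoulli bond percolation: every edge is open (`true`) with probability `p`, independently. -/
noncomputable def perc (p : ℝ≥0) (hp : p ≤ 1) : Measure (H.edgeSet → Bool) :=
  Measure.infinitePi fun _ => (PMF.bernoulli p hp).toMeasure

/-- The graph of the open edges. -/
def opn (ω : H.edgeSet → Bool) : SimpleGraph W :=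
  SimpleGraph.fromEdgeSet {e | ∃ h : e ∈ H.edgeSet, ω ⟨e, h⟩ = true}

variable {H}

instance (p : ℝ≥0) (hp : p ≤ 1) : IsProbabilityMeasure (perc H p hp) := by
  unfold perc
  infer_instance

lemma opn_le (ω : H.edgeSet → Bool) : opn H ω ≤ H := by
  intro x y h
  unfold opn at h
  rw [SimpleGraph.fromEdgeSet_adj] at h
  obtain ⟨⟨h1, _⟩, _⟩ := h
  exact h1

lemma opn_adj {ω : H.edgeSet → Bool} {x y : W} (h : H.Adj x y) :
    (opn H ω).Adj x y ↔ ω ⟨s(x, y), h⟩ = true := by
  unfold opn
  rw [SimpleGraph.fromEdgeSet_adj]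
  constructor
  · rintro ⟨⟨h1, h2⟩, _⟩
    exact h2
  · intro h1
    exact ⟨⟨h, h1⟩, h.ne⟩

lemma mem_opn {ω : H.edgeSet → Bool} {e : Sym2 W} (h : e ∈ (opn H ω).edgeSet) :
    ∃ h' : e ∈ H.edgeSet, ω ⟨e, h'⟩ = true := by
  unfold opn at h
  rw [SimpleGraph.edgeSet_fromEdgeSet] at h
  exact h.1

/-- The edges of a finite set are all open with probability `p ^ card`. -/
lemma open_prob (p : ℝ≥0) (hp : p ≤ 1) (S : Finset H.edgeSet) :
    perc H p hp {ω | ∀ e ∈ S, ω e = true} = (p : ℝ≥0∞) ^ S.card := by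
  have h1 : {ω : H.edgeSet → Bool | ∀ e ∈ S, ω e = true} =
      Set.pi (S : Set H.edgeSet) (fun _ => ({true} : Set Bool)) := by
    ext ω
    simp [Set.mem_pi]
  rw [h1]
  unfold perc
  rw [Measure.infinitePi_pi _ (fun _ _ => measurableSet_singleton _)]
  have h2 : (PMF.bernoulli p hp).toMeasure {true} = (p : ℝ≥0∞) := by
    rw [PMF.toMeasure_apply_singleton _ _ (measurableSet_singleton _)]
    simp [PMF.bernoulli_apply]
  rw [Finset.prod_congr rfl fun _ _ => h2, Finset.prod_const]

section walks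

variable [DecidableEq W] [H.LocallyFinite]

/-- The number of walks of length `n`. -/
lemma card_walks {f : W → ℝ} {c : ℝ} (hc : 0 ≤ c)
    (hf : ∀ u, ∑ w : H.neighborSet u, f w ≤ c * f u) (n : ℕ) (u v : W) (hf0 : ∀ w, 0 ≤ f w) :
    ((H.finsetWalkLength n u v).card : ℝ) * f v ≤ c ^ n * f u := by
  induction n generalizing u with
  | zero =>
    by_cases h : u = v
    · subst h
      simp [SimpleGraph.finsetWalkLength]
    · simp [SimpleGraph.finsetWalkLength, h, hf0]
  | succ n ih =>
    have h1 : (H.finsetWalkLength (n + 1) u v).card ≤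
        ∑ w : H.neighborSet u, (H.finsetWalkLength n w v).card := by
      rw [SimpleGraph.finsetWalkLength]
      refine Finset.card_biUnion_le.trans (Finset.sum_le_sum fun w _ => ?_)
      rw [Finset.card_map]
    have h2 : ((H.finsetWalkLength (n + 1) u v).card : ℝ) ≤
        ∑ w : H.neighborSet u, ((H.finsetWalkLength n w v).card : ℝ) := by
      exact_mod_cast h1
    calc ((H.finsetWalkLength (n + 1) u v).card : ℝ) * f v
        ≤ (∑ w : H.neighborSet u, ((H.finsetWalkLength n w v).card : ℝ)) * f v :=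
          mul_le_mul_of_nonneg_right h2 (hf0 v)
      _ = ∑ w : H.neighborSet u, ((H.finsetWalkLength n w v).card : ℝ) * f v := by
          rw [Finset.sum_mul]
      _ ≤ ∑ w : H.neighborSet u, c ^ n * f w := Finset.sum_le_sum fun w _ => ih w
      _ = c ^ n * ∑ w : H.neighborSet u, f w := by rw [Finset.mul_sum]
      _ ≤ c ^ n * (c * f u) := mul_le_mul_of_nonneg_left (hf u) (pow_nonneg hc n)
      _ = c ^ (n + 1) * f u := by ring

/-- Two vertices with the same weight are connected with small probability if every walk between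
them is long. -/
lemma conn_le {f : W → ℝ} {c : ℝ} (hc : 0 ≤ c)
    (hf : ∀ u, ∑ w : H.neighborSet u, f w ≤ c * f u) (hf0 : ∀ w, 0 < f w)
    (p : ℝ≥0) (hp : p ≤ 1) (hr : p * c < 1) (u v : W) (huv : f u = f v) (L : ℕ)
    (hL : ∀ q : H.Walk u v, L ≤ q.length) :
    perc H p hp {ω | (opn H ω).Reachable u v} ≤
      ENNReal.ofReal ((p * c) ^ L / (1 - p * c)) := by
  classical
  have hr0 : 0 ≤ (p : ℝ) * c := mul_nonneg p.2 hc
  -- the events
  set E : ℕ → Set (H.edgeSet → Bool) := fun n =>
    ⋃ q ∈ (H.finsetWalkLength (L + n) u v).filter (fun q => q.IsPath),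
      {ω | ∀ e ∈ q.edges.toFinset.subtype (· ∈ H.edgeSet), ω e = true} with hE
  have h1 : {ω | (opn H ω).Reachable u v} ⊆ ⋃ n, E n := by
    intro ω hω
    obtain ⟨q₀, hq₀⟩ := hω.exists_isPath
    have hq₁ : ∀ e ∈ q₀.edges, e ∈ H.edgeSet := fun e he =>
      SimpleGraph.edgeSet_mono (opn_le ω) (q₀.edges_subset_edgeSet he)
    set q : H.Walk u v := q₀.transfer H hq₁ with hq
    have hqp : q.IsPath := hq₀.transfer hq₁
    have hqe : q.edges = q₀.edges := q₀.edges_transfer hq₁
    obtain ⟨n, hn⟩ : ∃ n, q.length = L + n := ⟨q.length - L, by have := hL q; omega⟩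
    refine Set.mem_iUnion.2 ⟨n, ?_⟩
    rw [hE]
    simp only [Set.mem_iUnion, Finset.mem_filter, SimpleGraph.mem_finsetWalkLength_iff,
      Set.mem_ofPred_eq, Finset.mem_subtype, List.mem_toFinset]
    refine ⟨q, ⟨hn, hqp⟩, fun e he => ?_⟩
    rw [hqe] at he
    obtain ⟨h2, h3⟩ := mem_opn (q₀.edges_subset_edgeSet he)
    exact h3
  have h2 : ∀ n, perc H p hp (E n) ≤ ENNReal.ofReal ((p * c) ^ (L + n)) := by
    intro n
    have h3 : ∀ q ∈ (H.finsetWalkLength (L + n) u v).filter (fun q => q.IsPath),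
        perc H p hp {ω | ∀ e ∈ q.edges.toFinset.subtype (· ∈ H.edgeSet), ω e = true} =
          (p : ℝ≥0∞) ^ (L + n) := by
      intro q hq
      rw [Finset.mem_filter, SimpleGraph.mem_finsetWalkLength_iff] at hq
      rw [open_prob, Finset.card_subtype, Finset.filter_true_of_mem, List.toFinset_card_of_nodup,
        SimpleGraph.Walk.length_edges, hq.1]
      · exact hq.2.isTrail.edges_nodup
      · intro e he
        exact q.edges_subset_edgeSet (List.mem_toFinset.1 he)
    have h4 : perc H p hp (E n) ≤ ((H.finsetWalkLength (L + n) u v).card : ℝ≥0∞) *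
        (p : ℝ≥0∞) ^ (L + n) := by
      refine (measure_biUnion_finset_le _ _).trans ?_
      rw [Finset.sum_congr rfl h3, Finset.sum_const, nsmul_eq_mul]
      gcongr
      exact Finset.filter_subset _ _
    refine h4.trans ?_
    have h5 : ((H.finsetWalkLength (L + n) u v).card : ℝ) ≤ c ^ (L + n) := by
      have := card_walks hc hf (L + n) u v fun w => (hf0 w).le
      rw [huv] at this
      exact le_of_mul_le_mul_right this (hf0 v)
    have h6 : ((H.finsetWalkLength (L + n) u v).card : ℝ≥0∞) * (p : ℝ≥0∞) ^ (L + n) =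
        ENNReal.ofReal (((H.finsetWalkLength (L + n) u v).card : ℝ) * (p : ℝ) ^ (L + n)) := by
      rw [ENNReal.ofReal_mul (by positivity), ENNReal.ofReal_natCast]
      congr 1
      rw [ENNReal.ofReal_pow (NNReal.coe_nonneg p), ENNReal.ofReal_coe_nnreal]
    rw [h6]
    refine ENNReal.ofReal_le_ofReal ?_
    rw [mul_pow, mul_comm]
    exact mul_le_mul_of_nonneg_left h5 (pow_nonneg p.2 _)
  have hs : Summable fun n : ℕ => ((p : ℝ) * c) ^ (L + n) := by
    simp_rw [pow_add]
    exact (summable_geometric_of_lt_one hr0 hr).mul_left _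
  calc perc H p hp {ω | (opn H ω).Reachable u v}
      ≤ perc H p hp (⋃ n, E n) := measure_mono h1
    _ ≤ ∑' n, perc H p hp (E n) := measure_iUnion_le _
    _ ≤ ∑' n, ENNReal.ofReal (((p : ℝ) * c) ^ (L + n)) := ENNReal.tsum_le_tsum h2
    _ = ENNReal.ofReal (∑' n, ((p : ℝ) * c) ^ (L + n)) := by
        rw [ENNReal.ofReal_tsum_of_nonneg (fun n => pow_nonneg hr0 _) hs]
    _ = ENNReal.ofReal ((p * c) ^ L / (1 - p * c)) := by
        congr 1
        simp_rw [pow_add]
        rw [tsum_mul_left, tsum_geometric_of_lt_one hr0 hr]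
        rfl

end walks

end Pool.Agent.V11322.SA
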