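import Pool.Agent.V11322.SA.Count

/-!
# Infinite clusters in the layers, and the probability that far layers are connected
-/

namespace Pool.Agent.V11322.SA

open MeasureTheory ProbabilityTheory
open scoped NNReal ENNReal

variable {b : ℕ} {R : ℕ → Prop} [NeZero b]

/-- The number of levels in `R` below `j`. -/
noncomputable def cnt (R : ℕ → Prop) (j : ℕ) : ℕ :=
  open Classical in ((Finset.range j).filter R).card

lemma card_lev (j : ℕ) : (lev b R j).card * b ^ cnt R j = b ^ j := by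
  classical
  induction j with
  | zero => simp [card_lev_zero, cnt]
  | succ j ih =>
    rw [card_lev_succ]
    unfold cnt at ih ⊢
    rw [Finset.range_add_one, Finset.filter_insert]
    by_cases h : R j
    · rw [if_pos h, Finset.card_insert_of_notMem (by simp)]
      unfold kap
      rw [if_pos h, mul_one, pow_succ, ← mul_assoc, ih, pow_succ]
    · rw [if_neg h]
      unfold kap
      rw [if_neg h, mul_right_comm, ih, pow_succ]

lemma lev_large (p : ℝ) (hp : 0 < p) (hpb : 16 ≤ p ^ 4 * (b : ℝ) ^ 3) (hR : ∀ j, 4 * cnt R j ≤ j)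
    (j : ℕ) : (2 : ℝ) ^ j ≤ p ^ j * (lev b R j).card := by
  have hb : 1 ≤ (b : ℝ) := by exact_mod_cast NeZero.one_le
  have h1 : ((lev b R j).card : ℝ) * (b : ℝ) ^ cnt R j = (b : ℝ) ^ j := by
    exact_mod_cast card_lev (b := b) (R := R) j
  have hL : 0 ≤ ((lev b R j).card : ℝ) := Nat.cast_nonneg _
  have h2 : (b : ℝ) ^ (4 * cnt R j) ≤ (b : ℝ) ^ j := pow_le_pow_right₀ hb (hR j)
  have h3 : (b : ℝ) ^ (3 * j) ≤ ((lev b R j).card : ℝ) ^ 4 := by
    have h4 : ((lev b R j).card : ℝ) ^ 4 * (b : ℝ) ^ (4 * cnt R j) = (b : ℝ) ^ (4 * j) := by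
      rw [mul_comm 4 (cnt R j), mul_comm 4 j, pow_mul, pow_mul, ← mul_pow, h1]
    have h5 : (b : ℝ) ^ (4 * j) = (b : ℝ) ^ (3 * j) * (b : ℝ) ^ j := by
      rw [← pow_add]; congr 1; ring
    have h6 : (b : ℝ) ^ (3 * j) * (b : ℝ) ^ j ≤ ((lev b R j).card : ℝ) ^ 4 * (b : ℝ) ^ j := by
      rw [← h5, ← h4]
      exact mul_le_mul_of_nonneg_left h2 (by positivity)
    exact le_of_mul_le_mul_right h6 (by positivity)
  have h7 : ((2 : ℝ) ^ j) ^ 4 ≤ (p ^ j * (lev b R j).card) ^ 4 := by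
    calc ((2 : ℝ) ^ j) ^ 4 = 16 ^ j := by rw [← pow_mul, mul_comm, pow_mul]; norm_num
      _ ≤ (p ^ 4 * (b : ℝ) ^ 3) ^ j := pow_le_pow_left₀ (by norm_num) hpb j
      _ = (p ^ j) ^ 4 * (b : ℝ) ^ (3 * j) := by rw [mul_pow, ← pow_mul, ← pow_mul, ← pow_mul,
            mul_comm 4 j]
      _ ≤ (p ^ j) ^ 4 * ((lev b R j).card : ℝ) ^ 4 :=
          mul_le_mul_of_nonneg_left h3 (by positivity)
      _ = _ := by rw [mul_pow]
  exact le_of_pow_le_pow_left₀ (by norm_num) (by positivity) h7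

lemma sum_inv (p : ℝ) (hp : 0 < p) (hpb : 16 ≤ p ^ 4 * (b : ℝ) ^ 3) (hR : ∀ j, 4 * cnt R j ≤ j)
    (n : ℕ) : ∑ j ∈ Finset.range (n + 1), 1 / (p ^ j * ((lev b R j).card : ℝ)) ≤ 2 := by
  have h1 : ∀ j ∈ Finset.range (n + 1), 1 / (p ^ j * ((lev b R j).card : ℝ)) ≤ (1 / 2 : ℝ) ^ j := by
    intro j _
    rw [one_div_pow]
    exact one_div_le_one_div_of_le (by positivity) (lev_large p hp hpb hR j)
  refine (Finset.sum_le_sum h1).trans ?_
  have h2 := summable_geometric_two.sum_le_tsum (Finset.range (n + 1)) fun i _ => by positivity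
  rwa [tsum_geometric_two] at h2

/-! ### The edges of the paths -/

/-- The edge from `x` to its parent at the height `h`. -/
noncomputable def ed (h : ℤ) (x : Vx b R) : (prodZ (tree b R)).edgeSet :=
  open Classical in
  if hx : ∃ c, x.1 = c :: (dr 1 x).1 then
    ⟨s((x, h), (dr 1 x, h)), Or.inr ⟨rfl, Or.inl hx⟩⟩
  else ⟨s((chd root 0, h), (root, h)), Or.inr ⟨rfl, chd_adj root 0⟩⟩

omit [NeZero b] in
lemma cons_dr {x : Vx b R} (hx : x.1 ≠ []) : ∃ c, x.1 = c :: (dr 1 x).1 := by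
  rcases h : x.1 with _ | ⟨c, l⟩
  · exact absurd h hx
  · refine ⟨c, ?_⟩
    show c :: l = c :: x.1.drop 1
    rw [h]; rfl

lemma ed_val {h : ℤ} {x : Vx b R} (hx : x.1 ≠ []) : (ed h x).1 = s((x, h), (dr 1 x, h)) := by
  unfold ed
  rw [dif_pos (cons_dr hx)]

lemma ed_inj {h h' : ℤ} {x x' : Vx b R} (hx : x.1 ≠ []) (hx' : x'.1 ≠ [])
    (he : ed h x = ed h' x') : h = h' ∧ x = x' := by
  have h1 := congrArg Subtype.val he
  rw [ed_val hx, ed_val hx', Sym2.eq_iff] at h1
  rcases h1 with ⟨h2, _⟩ | ⟨h2, h3⟩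
  · exact ⟨congrArg Prod.snd h2, congrArg Prod.fst h2⟩
  · exfalso
    have e1 : x = dr 1 x' := congrArg Prod.fst h2
    have e2 : dr 1 x = x' := congrArg Prod.fst h3
    have l1 := congrArg (fun y : Vx b R => y.1.length) e1
    have l2 := congrArg (fun y : Vx b R => y.1.length) e2
    simp only [length_dr] at l1 l2
    have := List.length_pos_iff.2 hx
    have := List.length_pos_iff.2 hx'
    omega

/-- The edges of the path from the root to `u` at the height `h`. -/
noncomputable def pe (i : Vx b R × ℤ) : Finset (prodZ (tree b R)).edgeSet :=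
  open Classical in (Sf i.1).image (ed i.2)

lemma card_pe (i : Vx b R × ℤ) : (pe i).card = i.1.1.length := by
  classical
  unfold pe
  rw [Finset.card_image_of_injOn, card_Sf]
  intro x hx y hy h
  exact (ed_inj (mem_Sf.1 (Finset.mem_coe.1 hx)).1 (mem_Sf.1 (Finset.mem_coe.1 hy)).1 h).2

open Classical in
lemma card_pe_union_same (u v : Vx b R) (h : ℤ) :
    (pe (u, h) ∪ pe (v, h)).card = (Sf u ∪ Sf v).card := by
  unfold pe
  rw [← Finset.image_union, Finset.card_image_of_injOn]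
  intro x hx y hy hxy
  have hx1 : x.1 ≠ [] := by
    rcases Finset.mem_union.1 (Finset.mem_coe.1 hx) with h1 | h1 <;> exact (mem_Sf.1 h1).1
  have hy1 : y.1 ≠ [] := by
    rcases Finset.mem_union.1 (Finset.mem_coe.1 hy) with h1 | h1 <;> exact (mem_Sf.1 h1).1
  exact (ed_inj hx1 hy1 hxy).2

open Classical in
lemma card_pe_union_ne (u v : Vx b R) {h h' : ℤ} (hh : h ≠ h') :
    (pe (u, h) ∪ pe (v, h')).card = u.1.length + v.1.length := by
  rw [Finset.card_union_of_disjoint, card_pe, card_pe]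
  rw [Finset.disjoint_left]
  intro e he he'
  unfold pe at he he'
  obtain ⟨x, hx, rfl⟩ := Finset.mem_image.1 he
  obtain ⟨y, hy, hxy⟩ := Finset.mem_image.1 he'
  exact hh (ed_inj (mem_Sf.1 hy).1 (mem_Sf.1 hx).1 hxy).1.symm

/-- No path from the roots at the heights in `hs` to the level `n` is open. -/
def Zn (b : ℕ) [NeZero b] (R : ℕ → Prop) (hs : Finset ℤ) (n : ℕ) :
    Set ((prodZ (tree b R)).edgeSet → Bool) :=
  {ω | ∀ i ∈ lev b R n ×ˢ hs, ¬ ∀ e ∈ pe i, ω e = true}

theorem Zn_le (p : ℝ≥0) (hp : p ≤ 1) (hp0 : 0 < p) (hpb : 16 ≤ (p : ℝ) ^ 4 * (b : ℝ) ^ 3)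
    (hR : ∀ j, 4 * cnt R j ≤ j) (hs : Finset ℤ) (hh : hs.Nonempty) (n : ℕ) :
    (perc (prodZ (tree b R)) p hp).real (Zn b R hs n) ≤ 2 / hs.card := by
  classical
  have hp0' : (0 : ℝ) < p := hp0
  obtain ⟨w, hw⟩ := exists_level (b := b) (R := R) n
  have hLn : (lev b R n).Nonempty := ⟨w, mem_lev.2 hw⟩
  have hLn' : (0 : ℝ) < (lev b R n).card := by exact_mod_cast Finset.card_pos.2 hLn
  have hK : ∀ i ∈ lev b R n ×ˢ hs, ∑ j ∈ lev b R n ×ˢ hs,
      ((p : ℝ) ^ (pe i ∪ pe j).card - (p : ℝ) ^ (2 * n)) ≤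
      ((lev b R n).card * 2 : ℝ) * (p : ℝ) ^ (2 * n) := by
    rintro ⟨u, h⟩ hi
    rw [Finset.mem_product] at hi
    have hu := mem_lev.1 hi.1
    rw [Finset.sum_product_right]
    have h1 : ∀ h' ∈ hs, h' ≠ h → ∑ v ∈ lev b R n,
        ((p : ℝ) ^ (pe (u, h) ∪ pe (v, h')).card - (p : ℝ) ^ (2 * n)) = 0 := by
      intro h' _ hne
      refine Finset.sum_eq_zero fun v hv => ?_
      rw [card_pe_union_ne u v (Ne.symm hne), hu, mem_lev.1 hv, two_mul, sub_self]
    rw [Finset.sum_eq_single_of_mem h hi.2 h1]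
    calc ∑ v ∈ lev b R n, ((p : ℝ) ^ (pe (u, h) ∪ pe (v, h)).card - (p : ℝ) ^ (2 * n))
        ≤ ∑ v ∈ lev b R n, (p : ℝ) ^ (Sf u ∪ Sf v).card := by
          refine Finset.sum_le_sum fun v _ => ?_
          rw [card_pe_union_same]
          have : 0 ≤ (p : ℝ) ^ (2 * n) := by positivity
          linarith
      _ ≤ _ := pair_sum (p : ℝ) hp0' n u hi.1
      _ ≤ _ := by
          refine mul_le_mul_of_nonneg_right ?_ (by positivity)
          exact mul_le_mul_of_nonneg_left (sum_inv (p : ℝ) hp0' hpb hR n) hLn'.le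
  have h2 := second_moment (H := prodZ (tree b R)) p hp hp0 (lev b R n ×ˢ hs)
    (hLn.product hh) pe n (fun i hi => by
      rw [card_pe, mem_lev.1 (Finset.mem_product.1 hi).1]) ((lev b R n).card * 2 : ℝ) hK
  refine h2.trans (le_of_eq ?_)
  have hhs : (0 : ℝ) < hs.card := by exact_mod_cast Finset.card_pos.2 hh
  rw [Finset.card_product]
  push_cast
  field_simp

omit [NeZero b] in
lemma Sf_dr (u : Vx b R) (i : ℕ) : Sf (dr i u) ⊆ Sf u := by
  intro x hx
  rw [mem_Sf] at hx ⊢
  exact ⟨hx.1, hx.2.trans (List.drop_suffix _ _)⟩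

lemma Zn_mono (hs : Finset ℤ) : Monotone (Zn b R hs) := by
  classical
  refine monotone_nat_of_le_succ fun n ω hω => ?_
  rintro ⟨u, h⟩ hi hop
  rw [Finset.mem_product, mem_lev] at hi
  refine hω (dr 1 u, h) ?_ ?_
  · rw [Finset.mem_product, mem_lev]
    refine ⟨?_, hi.2⟩
    show (dr 1 u).1.length = n
    have : u.1.length = n + 1 := hi.1
    rw [length_dr]; omega
  · intro e he
    refine hop e ?_
    unfold pe at he ⊢
    exact Finset.image_subset_image (Sf_dr u 1) he

/-- The root at the height `h` is connected to all levels inside its layer. -/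
def Up (ω : (prodZ (tree b R)).edgeSet → Bool) (h : ℤ) : Prop :=
  ∀ n, ∃ u ∈ lev b R n, ∀ e ∈ pe (u, h), ω e = true

theorem up_le (p : ℝ≥0) (hp : p ≤ 1) (hp0 : 0 < p) (hpb : 16 ≤ (p : ℝ) ^ 4 * (b : ℝ) ^ 3)
    (hR : ∀ j, 4 * cnt R j ≤ j) (hs : Finset ℤ) (hh : hs.Nonempty) :
    (perc (prodZ (tree b R)) p hp).real {ω | ¬ ∃ h ∈ hs, Up ω h} ≤ 2 / hs.card := by
  classical
  have h1 : {ω : (prodZ (tree b R)).edgeSet → Bool | ¬ ∃ h ∈ hs, Up ω h} ⊆
      ⋃ n, Zn b R hs n := by
    intro ω hω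
    have h2 : ∀ h : ℤ, ∃ n, h ∈ hs → ∀ u ∈ lev b R n, ¬ ∀ e ∈ pe (u, h), ω e = true := by
      intro h
      by_cases hh' : h ∈ hs
      · have h3 : ¬ Up ω h := fun h4 => hω ⟨h, hh', h4⟩
        unfold Up at h3
        push Not at h3
        obtain ⟨n, hn⟩ := h3
        refine ⟨n, fun _ u hu hcon => ?_⟩
        obtain ⟨e, he, hne⟩ := hn u hu
        exact hne (hcon e he)
      · exact ⟨0, fun h3 => absurd h3 hh'⟩
    choose f hf using h2
    refine Set.mem_iUnion.2 ⟨hs.sup f, ?_⟩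
    rintro ⟨u, h⟩ hi
    rw [Finset.mem_product] at hi
    have h3 : ω ∈ Zn b R {h} (f h) := by
      rintro ⟨v, h'⟩ hi'
      rw [Finset.mem_product, Finset.mem_singleton] at hi'
      rw [show h' = h from hi'.2]
      exact hf h hi.2 v hi'.1
    exact Zn_mono {h} (Finset.le_sup (f := f) hi.2) h3 (u, h)
      (Finset.mem_product.2 ⟨hi.1, Finset.mem_singleton_self h⟩)
  have h4 : perc (prodZ (tree b R)) p hp (⋃ n, Zn b R hs n) ≤ ENNReal.ofReal (2 / hs.card) := by
    rw [(Zn_mono hs).measure_iUnion]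
    refine iSup_le fun n => ?_
    have h5 := Zn_le p hp hp0 hpb hR hs hh n
    rw [measureReal_def] at h5
    exact (ENNReal.le_ofReal_iff_toReal_le (measure_ne_top _ _) (by positivity)).2 h5
  rw [measureReal_def]
  exact ENNReal.toReal_le_of_le_ofReal (by positivity) ((measure_mono h1).trans h4)

lemma reach_of_open {ω : (prodZ (tree b R)).edgeSet → Bool} {h : ℤ} (u : Vx b R)
    (hu : ∀ e ∈ pe (u, h), ω e = true) :
    (opn (prodZ (tree b R)) ω).Reachable (root, h) (u, h) := by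
  classical
  obtain ⟨n, hn⟩ : ∃ n, n = u.1.length := ⟨_, rfl⟩
  induction n generalizing u with
  | zero =>
    have : u = root := Subtype.ext (List.length_eq_zero_iff.1 hn.symm)
    rw [this]
  | succ n ih =>
    have hne : u.1 ≠ [] := by
      intro h0
      rw [h0] at hn
      simp at hn
    have h1 := ih (dr 1 u) (fun e he => hu e (by
      unfold pe at he ⊢
      exact Finset.image_subset_image (Sf_dr u 1) he)) (by rw [length_dr]; omega)
    refine h1.trans (SimpleGraph.Adj.reachable ?_)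
    have h2 : (prodZ (tree b R)).Adj (u, h) (dr 1 u, h) := Or.inr ⟨rfl, Or.inl (cons_dr hne)⟩
    have h3 : ω (ed h u) = true := hu _ (by
      unfold pe
      exact Finset.mem_image_of_mem _ (mem_Sf.2 ⟨hne, List.suffix_refl _⟩))
    have h4 : ed h u = ⟨s((u, h), (dr 1 u, h)), h2⟩ := Subtype.ext (ed_val hne)
    rw [h4] at h3
    exact ((opn_adj h2).2 h3).symm

lemma up_infinite {ω : (prodZ (tree b R)).edgeSet → Bool} {h : ℤ} (hup : Up ω h) :
    ((opn (prodZ (tree b R)) ω).connectedComponentMk (root, h)).supp.Infinite := by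
  intro hfin
  obtain ⟨n, hn⟩ := (hfin.image fun x : Vx b R × ℤ => x.1.1.length).bddAbove
  obtain ⟨u, hu, hop⟩ := hup (n + 1)
  have h1 : (u, h) ∈ ((opn (prodZ (tree b R)) ω).connectedComponentMk (root, h)).supp := by
    rw [SimpleGraph.ConnectedComponent.mem_supp_iff, SimpleGraph.ConnectedComponent.eq]
    exact (reach_of_open u hop).symm
  have h2 : u.1.length ≤ n := hn ⟨(u, h), h1, rfl⟩
  rw [mem_lev.1 hu] at h2
  omega

/-! ### Far layers -/

omit [NeZero b] in
lemma prodZ_locfin (x : Vx b R × ℤ) : ((prodZ (tree b R)).neighborSet x).Finite := by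
  refine ((finite_level (x.1.1.length + 1)).prod (Set.finite_Icc (x.2 - 1) (x.2 + 1))).subset ?_
  rintro y (⟨h1, h2⟩ | ⟨h1, h2⟩)
  · rw [abs_eq (by norm_num)] at h2
    refine ⟨?_, ?_⟩
    · show y.1.1.length ≤ x.1.1.length + 1
      rw [← h1]; omega
    · rw [Set.mem_Icc]; omega
  · refine ⟨(length_adj h2).1, ?_⟩
    rw [Set.mem_Icc]; omega

omit [NeZero b] in
lemma walk_height {x y : Vx b R × ℤ} (q : (prodZ (tree b R)).Walk x y) :
    |x.2 - y.2| ≤ q.length := by
  induction q with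
  | nil => simp
  | @cons x z y h q ih =>
    rw [SimpleGraph.Walk.length_cons]
    have h1 : |x.2 - z.2| ≤ 1 := by
      rcases h with ⟨_, h2⟩ | ⟨h2, _⟩
      · exact h2.le
      · rw [h2]; simp
    have h2 := abs_sub_le x.2 z.2 y.2
    push_cast
    linarith

open Classical in
theorem far_le (s : ℕ) (hs : 0 < s) (hb : b = s * s) (p : ℝ≥0) (hp : p ≤ 1)
    (hr : (p : ℝ) * (2 * s + 2) < 1) (i j : ℤ) (L : ℕ) (hL : (L : ℤ) ≤ |i - j|) :
    (perc (prodZ (tree b R)) p hp).real
      {ω | (opn (prodZ (tree b R)) ω).Reachable (root, i) (root, j)} ≤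
      (p * (2 * s + 2)) ^ L / (1 - p * (2 * s + 2)) := by
  have hs' : (0 : ℝ) < s := by exact_mod_cast hs
  letI : (prodZ (tree b R)).LocallyFinite := fun x => (prodZ_locfin x).fintype
  set f : Vx b R × ℤ → ℝ := fun x => (1 / (s : ℝ)) ^ x.1.1.length with hf
  have hf0 : ∀ x, 0 < f x := fun x => by positivity
  have hsum : ∀ u, ∑ w : (prodZ (tree b R)).neighborSet u, f w ≤ (2 * s + 2) * f u := by
    intro u
    -- the neighbours
    set g : (Bool ⊕ (Unit ⊕ Fin b)) → Vx b R × ℤ := fun k => match k with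
      | .inl true => (u.1, u.2 + 1)
      | .inl false => (u.1, u.2 - 1)
      | .inr (.inl _) => (dr 1 u.1, u.2)
      | .inr (.inr c) => (chd u.1 c, u.2) with hg
    have hcov : ∀ w : (prodZ (tree b R)).neighborSet u, ∃ k, g k = w ∧
        (k = .inr (.inl ()) → u.1.1 ≠ []) := by
      rintro ⟨w, hw⟩
      rcases hw with ⟨h1, h2⟩ | ⟨h1, ⟨c, h2⟩ | ⟨c, h2⟩⟩
      · rw [abs_eq (by norm_num)] at h2
        rcases h2 with h2 | h2
        · exact ⟨.inl false, Prod.ext h1 (by show u.2 - 1 = w.2; omega), by simp⟩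
        · exact ⟨.inl true, Prod.ext h1 (by show u.2 + 1 = w.2; omega), by simp⟩
      · exact ⟨.inr (.inl ()), Prod.ext (dr_one h2) h1, fun _ => by rw [h2]; simp⟩
      · refine ⟨.inr (.inr c), Prod.ext ?_ h1, by simp⟩
        show chd u.1 c = w.1
        apply Subtype.ext
        have h3 := w.1.2
        rw [h2] at h3
        unfold chd
        rw [dif_pos h3.2, h2]
    choose σ hσ hσ2 using hcov
    have hσi : Function.Injective σ := by
      intro w w' h
      have h1 := hσ w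
      rw [h, hσ w'] at h1
      exact Subtype.ext h1.symm
    -- the weights
    set F : (Bool ⊕ (Unit ⊕ Fin b)) → ℝ := fun k => match k with
      | .inl _ => f u
      | .inr (.inl _) => s * f u
      | .inr (.inr _) => 1 / s * f u with hF
    have hF0 : ∀ k, 0 ≤ F k := by
      rintro (k | k | k)
      · exact (hf0 u).le
      · exact mul_nonneg hs'.le (hf0 u).le
      · exact mul_nonneg (by positivity) (hf0 u).le
    have h1 : ∀ w : (prodZ (tree b R)).neighborSet u, f w ≤ F (σ w) := by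
      intro w
      rw [← hσ w]
      rcases h2 : σ w with k | k | c
      · rcases k with _ | _ <;> exact le_rfl
      · have h3 := hσ2 w (by rw [h2])
        have h4 := List.length_pos_iff.2 h3
        show (1 / (s : ℝ)) ^ (dr 1 u.1).1.length ≤ s * (1 / (s : ℝ)) ^ u.1.1.length
        rw [length_dr]
        obtain ⟨k', hk'⟩ : ∃ k', u.1.1.length = k' + 1 := ⟨u.1.1.length - 1, by omega⟩
        rw [hk', Nat.add_sub_cancel, pow_succ]
        apply le_of_eq
        field_simp
      · show (1 / (s : ℝ)) ^ (chd u.1 c).1.length ≤ 1 / s * (1 / (s : ℝ)) ^ u.1.1.length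
        have h3 : (chd u.1 c).1.length = u.1.1.length + 1 := by
          unfold chd
          split_ifs <;> simp
        rw [h3, pow_succ, mul_comm]
    calc ∑ w : (prodZ (tree b R)).neighborSet u, f w
        ≤ ∑ w : (prodZ (tree b R)).neighborSet u, F (σ w) := Finset.sum_le_sum fun w _ => h1 w
      _ = ∑ k ∈ Finset.univ.image σ, F k := by
          rw [Finset.sum_image fun _ _ _ _ h => hσi h]
      _ ≤ ∑ k, F k := Finset.sum_le_univ_sum_of_nonneg hF0
      _ = (2 * s + 2) * f u := by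
          rw [Fintype.sum_sum_type, Fintype.sum_sum_type]
          simp only [hF, Finset.sum_const, Finset.card_univ, Fintype.card_fin, Fintype.card_bool,
            Fintype.card_unit, nsmul_eq_mul]
          have hb' : (b : ℝ) = s * s := by rw [hb]; push_cast; ring
          rw [hb']
          field_simp
          ring
  have h2 := conn_le (H := prodZ (tree b R)) (f := f) (c := 2 * s + 2) (by positivity) hsum hf0
    p hp hr (root, i) (root, j) rfl L (fun q => by
      have := walk_height q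
      have h3 : (L : ℤ) ≤ q.length := hL.trans this
      exact_mod_cast h3)
  rw [measureReal_def]
  refine ENNReal.toReal_le_of_le_ofReal ?_ h2
  have h3 : 0 < 1 - (p : ℝ) * (2 * s + 2) := by linarith
  have h4 : 0 ≤ (p : ℝ) := p.2
  positivity

end Pool.Agent.V11322.SA
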