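import Pool.Agent.V11322.SA.Walks

/-!
# The second moment method
-/

namespace Pool.Agent.V11322.SA

open MeasureTheory ProbabilityTheory
open scoped NNReal ENNReal

variable {W : Type} {H : SimpleGraph W}

lemma meas_open (S : Finset H.edgeSet) :
    MeasurableSet {ω : H.edgeSet → Bool | ∀ e ∈ S, ω e = true} := by
  have h1 : {ω : H.edgeSet → Bool | ∀ e ∈ S, ω e = true} =
      ⋂ e ∈ S, (fun ω : H.edgeSet → Bool => ω e) ⁻¹' {true} := by
    ext ω
    simp
  rw [h1]
  exact Finset.measurableSet_biInter _ fun e _ =>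
    (measurable_pi_apply e) (measurableSet_singleton true)

lemma open_real (p : ℝ≥0) (hp : p ≤ 1) (S : Finset H.edgeSet) :
    (perc H p hp).real {ω | ∀ e ∈ S, ω e = true} = (p : ℝ) ^ S.card := by
  rw [measureReal_def, open_prob, ENNReal.toReal_pow, ENNReal.coe_toReal]

lemma indm {α : Type} (s t : Set α) (a : α) : s.indicator (fun _ => (1 : ℝ)) a *
    t.indicator (fun _ => (1 : ℝ)) a = (s ∩ t).indicator (fun _ => (1 : ℝ)) a := by
  rw [← Set.inter_indicator_mul]
  simp only [mul_one]

/-- **The second moment method.** -/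
theorem second_moment [DecidableEq H.edgeSet] (p : ℝ≥0) (hp : p ≤ 1) (hp0 : 0 < p) {ι : Type} (I : Finset ι)
    (hI : I.Nonempty) (A : ι → Finset H.edgeSet) (n : ℕ) (hA : ∀ i ∈ I, (A i).card = n) (K : ℝ)
    (hK : ∀ i ∈ I, ∑ j ∈ I, ((p : ℝ) ^ (A i ∪ A j).card - (p : ℝ) ^ (2 * n)) ≤
      K * (p : ℝ) ^ (2 * n)) :
    (perc H p hp).real {ω | ∀ i ∈ I, ¬ ∀ e ∈ A i, ω e = true} ≤ K / I.card := by
  set μ := perc H p hp with hμ
  set q : ℝ := (p : ℝ) ^ n with hq
  have hp0' : (0 : ℝ) < p := hp0
  have hq0 : 0 < q := pow_pos hp0' n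
  have hI0 : (0 : ℝ) < I.card := by exact_mod_cast Finset.card_pos.2 hI
  set O : ι → Set (H.edgeSet → Bool) := fun i => {ω | ∀ e ∈ A i, ω e = true} with hO
  have hOm : ∀ i, MeasurableSet (O i) := fun i => meas_open (A i)
  set g : ι → (H.edgeSet → Bool) → ℝ := fun i => (O i).indicator (fun _ => (1 : ℝ)) with hg
  have hgi : ∀ i, Integrable (g i) μ := fun i => (integrable_const 1).indicator (hOm i)
  have hggi : ∀ i j, Integrable (fun ω => g i ω * g j ω) μ := by
    intro i j
    have h1 : (fun ω => g i ω * g j ω) = (O i ∩ O j).indicator (fun _ => (1 : ℝ)) := by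
      funext ω
      exact indm _ _ _
    rw [h1]
    exact (integrable_const 1).indicator ((hOm i).inter (hOm j))
  have hgg : ∀ i j, ∫ ω, g i ω * g j ω ∂μ = (p : ℝ) ^ (A i ∪ A j).card := by
    intro i j
    have h1 : (fun ω => g i ω * g j ω) =
        ({ω | ∀ e ∈ A i ∪ A j, ω e = true} : Set (H.edgeSet → Bool)).indicator
          (fun _ => (1 : ℝ)) := by
      funext ω
      have h2 : ({ω | ∀ e ∈ A i ∪ A j, ω e = true} : Set (H.edgeSet → Bool)) = O i ∩ O j := by
        ext ω
        simp only [hO, Set.mem_ofPred_eq, Finset.mem_union, Set.mem_inter_iff]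
        constructor
        · exact fun h => ⟨fun e he => h e (Or.inl he), fun e he => h e (Or.inr he)⟩
        · rintro ⟨h3, h4⟩ e (he | he)
          · exact h3 e he
          · exact h4 e he
      rw [h2]
      exact indm _ _ _
    rw [h1, integral_indicator_const _ (meas_open _), smul_eq_mul, mul_one, open_real]
  have hg1 : ∀ i ∈ I, ∫ ω, g i ω ∂μ = q := by
    intro i hi
    simp only [hg]
    rw [integral_indicator_const _ (hOm i), smul_eq_mul, mul_one, hO, open_real, hA i hi]
  have hcov : ∀ i ∈ I, ∀ j ∈ I, ∫ ω, (g i ω - q) * (g j ω - q) ∂μ =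
      (p : ℝ) ^ (A i ∪ A j).card - (p : ℝ) ^ (2 * n) := by
    intro i hi j hj
    have h1 : (fun ω => (g i ω - q) * (g j ω - q)) =
        fun ω => g i ω * g j ω - q * g i ω - q * g j ω + q * q := by
      funext ω; ring
    rw [h1, integral_add, integral_sub, integral_sub, integral_const_mul, integral_const_mul,
      hgg, hg1 i hi, hg1 j hj, integral_const, probReal_univ, smul_eq_mul, one_mul, two_mul,
      pow_add]
    · ring
    · exact hggi i j
    · exact (hgi i).const_mul q
    · exact (hggi i j).sub ((hgi i).const_mul q)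
    · exact (hgi j).const_mul q
    · exact ((hggi i j).sub ((hgi i).const_mul q)).sub ((hgi j).const_mul q)
    · exact integrable_const _
  have hcovi : ∀ i j, Integrable (fun ω => (g i ω - q) * (g j ω - q)) μ := by
    intro i j
    have h1 : (fun ω => (g i ω - q) * (g j ω - q)) =
        fun ω => g i ω * g j ω - q * g i ω - q * g j ω + q * q := by
      funext ω; ring
    rw [h1]
    exact (((hggi i j).sub ((hgi i).const_mul q)).sub ((hgi j).const_mul q)).add
      (integrable_const _)
  have hsq : ∀ ω, (∑ i ∈ I, (g i ω - q)) ^ 2 = ∑ i ∈ I, ∑ j ∈ I, (g i ω - q) * (g j ω - q) := by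
    intro ω
    rw [sq, Finset.sum_mul_sum]
  have hvar : ∫ ω, (∑ i ∈ I, (g i ω - q)) ^ 2 ∂μ ≤ I.card * (K * (p : ℝ) ^ (2 * n)) := by
    simp only [hsq]
    rw [integral_finsetSum _ fun i _ => integrable_finsetSum _ fun j _ => hcovi i j]
    rw [← nsmul_eq_mul, ← Finset.sum_const]
    refine Finset.sum_le_sum fun i hi => ?_
    rw [integral_finsetSum _ fun j _ => hcovi i j]
    rw [Finset.sum_congr rfl fun j hj => hcov i hi j hj]
    exact hK i hi
  set Z : Set (H.edgeSet → Bool) := {ω | ∀ i ∈ I, ¬ ∀ e ∈ A i, ω e = true} with hZ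
  have hZm : MeasurableSet Z := by
    have h1 : Z = ⋂ i ∈ I, (O i)ᶜ := by
      ext ω
      simp only [hZ, hO, Set.mem_ofPred_eq, Set.mem_iInter, Set.mem_compl_iff]
    rw [h1]
    exact Finset.measurableSet_biInter _ fun i _ => (hOm i).compl
  have hlow : μ.real Z * ((I.card : ℝ) * q) ^ 2 ≤ ∫ ω, (∑ i ∈ I, (g i ω - q)) ^ 2 ∂μ := by
    have h1 : μ.real Z * ((I.card : ℝ) * q) ^ 2 =
        ∫ ω, Z.indicator (fun _ => ((I.card : ℝ) * q) ^ 2) ω ∂μ := by
      rw [integral_indicator_const _ hZm, smul_eq_mul]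
    rw [h1]
    refine integral_mono ((integrable_const _).indicator hZm) ?_ fun ω => ?_
    · simp only [hsq]
      exact integrable_finsetSum _ fun i _ => integrable_finsetSum _ fun j _ => hcovi i j
    · beta_reduce
      by_cases hω : ω ∈ Z
      · rw [Set.indicator_of_mem hω]
        have h2 : ∑ i ∈ I, (g i ω - q) = -((I.card : ℝ) * q) := by
          rw [← nsmul_eq_mul, ← Finset.sum_const, ← Finset.sum_neg_distrib]
          refine Finset.sum_congr rfl fun i hi => ?_
          have h3 : g i ω = 0 := Set.indicator_of_notMem (s := O i) (hω i hi) _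
          rw [h3, zero_sub]
        rw [h2, neg_sq]
      · rw [Set.indicator_of_notMem hω]
        positivity
  have h3 : μ.real Z * ((I.card : ℝ) * q) ^ 2 ≤ I.card * (K * (p : ℝ) ^ (2 * n)) := hlow.trans hvar
  have h4 : (p : ℝ) ^ (2 * n) = q ^ 2 := by rw [hq, ← pow_mul, mul_comm]
  rw [h4] at h3
  rw [le_div_iff₀ hI0]
  have h5 : (μ.real Z * I.card) * (I.card * q ^ 2) ≤ K * (I.card * q ^ 2) := by nlinarith
  exact le_of_mul_le_mul_right h5 (by positivity)

end Pool.Agent.V11322.SA
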