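import Pool.Agent.V11322.SA.Tree
import Pool.Agent.V11322.SA.Moment

/-!
# The levels of the tree and the paths from the root in the product with the line
-/

namespace Pool.Agent.V11322.SA

open scoped NNReal

/-- The Cartesian product of `G` with the line. -/
def prodZ {V : Type} (G : SimpleGraph V) : SimpleGraph (V × ℤ) where
  Adj x y := (x.1 = y.1 ∧ |x.2 - y.2| = 1) ∨ (x.2 = y.2 ∧ G.Adj x.1 y.1)
  symm := ⟨by
    rintro x y (⟨h1, h2⟩ | ⟨h1, h2⟩)
    · exact Or.inl ⟨h1.symm, by rw [abs_sub_comm]; exact h2⟩
    · exact Or.inr ⟨h1.symm, h2.symm⟩⟩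
  loopless := ⟨by
    rintro x (⟨h1, h2⟩ | ⟨h1, h2⟩)
    · simp at h2
    · exact G.loopless.irrefl _ h2⟩

variable {b : ℕ} {R : ℕ → Prop}

/-- The vertices of the level `n`. -/
noncomputable def lev (b : ℕ) (R : ℕ → Prop) (n : ℕ) : Finset (Vx b R) :=
  (finite_level (b := b) (R := R) n).toFinset.filter fun u => u.1.length = n

lemma mem_lev {n : ℕ} {u : Vx b R} : u ∈ lev b R n ↔ u.1.length = n := by
  unfold lev
  rw [Finset.mem_filter, Set.Finite.mem_toFinset]
  exact ⟨fun h => h.2, fun h => ⟨h.le, h⟩⟩

/-- The number of children. -/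
noncomputable def kap (b : ℕ) (R : ℕ → Prop) (n : ℕ) : ℕ :=
  open Classical in if R n then 1 else b

/-- The digits. -/
noncomputable def dig (b : ℕ) [NeZero b] (R : ℕ → Prop) (n : ℕ) : Finset (Fin b) :=
  open Classical in if R n then {0} else Finset.univ

variable [NeZero b]

lemma card_dig (n : ℕ) : (dig b R n).card = kap b R n := by
  unfold dig kap
  split_ifs <;> simp

lemma chd_val {n : ℕ} {v : Vx b R} (hv : v.1.length = n) {c : Fin b} (hc : c ∈ dig b R n) :
    (chd v c).1 = c :: v.1 := by
  unfold chd
  split_ifs with h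
  · rfl
  · exfalso
    apply h
    intro hR
    rw [hv] at hR
    unfold dig at hc
    rw [if_pos hR, Finset.mem_singleton] at hc
    rw [hc]; simp

lemma dr_one {u v : Vx b R} {c : Fin b} (h : u.1 = c :: v.1) : dr 1 u = v := by
  apply Subtype.ext
  show u.1.drop 1 = v.1
  rw [h]; rfl

lemma card_step (P : Vx b R → Prop) [DecidablePred P] (n : ℕ) :
    ((lev b R (n + 1)).filter fun u => P (dr 1 u)).card =
      ((lev b R n).filter P).card * kap b R n := by
  have h1 : (lev b R (n + 1)).filter (fun u => P (dr 1 u)) =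
      ((lev b R n).filter P ×ˢ dig b R n).image fun q => chd q.1 q.2 := by
    ext u
    simp only [Finset.mem_filter, Finset.mem_image, Finset.mem_product, mem_lev, Prod.exists]
    constructor
    · rintro ⟨h1, h2⟩
      obtain ⟨c, l, hcl⟩ : ∃ c l, u.1 = c :: l := by
        rcases h3 : u.1 with _ | ⟨c, l⟩
        · rw [h3] at h1; simp at h1
        · exact ⟨c, l, rfl⟩
      have hok := u.2
      rw [hcl] at hok
      have hl : l.length = n := by
        rw [hcl, List.length_cons] at h1; omega
      have hd : dr 1 u = ⟨l, hok.1⟩ := dr_one (v := ⟨l, hok.1⟩) hcl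
      have hc : c ∈ dig b R n := by
        unfold dig
        split_ifs with h
        · rw [Finset.mem_singleton]
          exact Fin.ext (by simpa using hok.2 (by rw [hl]; exact h))
        · exact Finset.mem_univ _
      refine ⟨⟨l, hok.1⟩, c, ⟨⟨hl, hd ▸ h2⟩, hc⟩, ?_⟩
      apply Subtype.ext
      rw [chd_val hl hc, hcl]
    · rintro ⟨v, c, ⟨⟨h1, h2⟩, h3⟩, rfl⟩
      have h4 := chd_val h1 h3
      refine ⟨by rw [h4, List.length_cons, h1], ?_⟩
      rw [dr_one h4]
      exact h2
  rw [h1, Finset.card_image_of_injOn, Finset.card_product, card_dig]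
  rintro ⟨v, c⟩ hq ⟨v', c'⟩ hq' h
  simp only [Finset.coe_product, Set.mem_prod, Finset.mem_coe, Finset.mem_filter,
    mem_lev] at hq hq'
  have h2 := congrArg Subtype.val h
  simp only at h2
  rw [chd_val hq.1.1 hq.2, chd_val hq'.1.1 hq'.2, List.cons.injEq] at h2
  exact Prod.ext (Subtype.ext h2.2) h2.1

lemma card_lev_zero : (lev b R 0).card = 1 := by
  have h1 : lev b R 0 = {root} := by
    ext u
    rw [mem_lev, Finset.mem_singleton, List.length_eq_zero_iff]
    exact ⟨fun h => Subtype.ext h, fun h => by rw [h]; rfl⟩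
  rw [h1, Finset.card_singleton]

lemma card_lev_succ (n : ℕ) : (lev b R (n + 1)).card = (lev b R n).card * kap b R n := by
  classical
  have := card_step (b := b) (R := R) (fun _ => True) n
  simpa using this

open Classical in
lemma card_desc (x : Vx b R) {n : ℕ} (hn : x.1.length ≤ n) :
    ((lev b R n).filter fun u => x.1 <:+ u.1).card * (lev b R x.1.length).card =
      (lev b R n).card := by
  induction n, hn using Nat.le_induction with
  | base =>
    have h1 : (lev b R x.1.length).filter (fun u => x.1 <:+ u.1) = {x} := by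
      ext u
      rw [Finset.mem_filter, Finset.mem_singleton, mem_lev]
      constructor
      · rintro ⟨h1, h2⟩
        exact Subtype.ext (h2.eq_of_length h1.symm).symm
      · rintro rfl
        exact ⟨rfl, List.suffix_refl _⟩
    rw [h1, Finset.card_singleton, one_mul]
  | succ n hn ih =>
    have h1 : (lev b R (n + 1)).filter (fun u => x.1 <:+ u.1) =
        (lev b R (n + 1)).filter (fun u => x.1 <:+ (dr 1 u).1) := by
      ext u
      rw [Finset.mem_filter, Finset.mem_filter, mem_lev]
      refine and_congr_right fun hu => ?_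
      obtain ⟨c, l, hcl⟩ : ∃ c l, u.1 = c :: l := by
        rcases h3 : u.1 with _ | ⟨c, l⟩
        · rw [h3] at hu; simp at hu
        · exact ⟨c, l, rfl⟩
      show x.1 <:+ u.1 ↔ x.1 <:+ u.1.drop 1
      rw [hcl, List.suffix_cons_iff, List.drop_one, List.tail_cons]
      constructor
      · rintro (h | h)
        · exfalso
          have := congrArg List.length h
          rw [← hcl] at this
          omega
        · exact h
      · exact Or.inr
    have h2 : ((lev b R (n + 1)).filter (fun u => x.1 <:+ (dr 1 u).1)).card =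
        ((lev b R n).filter fun u => x.1 <:+ u.1).card * kap b R n := by
      exact card_step (b := b) (R := R) (fun u => x.1 <:+ u.1) n
    rw [h1, h2, card_lev_succ, ← ih]
    ring

/-- The ancestors different from the root, with the vertex itself. -/
noncomputable def Sf (u : Vx b R) : Finset (Vx b R) :=
  open Classical in (Finset.range u.1.length).image fun i => dr i u

omit [NeZero b] in
lemma mem_Sf {u x : Vx b R} : x ∈ Sf u ↔ x.1 ≠ [] ∧ x.1 <:+ u.1 := by
  classical
  unfold Sf
  rw [Finset.mem_image]
  constructor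
  · rintro ⟨i, hi, rfl⟩
    rw [Finset.mem_range] at hi
    refine ⟨?_, List.drop_suffix _ _⟩
    intro h
    have h1 : (u.1.drop i).length = 0 := by
      rw [show u.1.drop i = [] from h]; rfl
    rw [List.length_drop] at h1
    omega
  · rintro ⟨h1, h2⟩
    have h3 := h2.length_le
    have h4 : 0 < x.1.length := List.length_pos_iff.2 h1
    refine ⟨u.1.length - x.1.length, Finset.mem_range.2 (by omega), ?_⟩
    apply Subtype.ext
    exact (List.suffix_iff_eq_drop.1 h2).symm

omit [NeZero b] in
lemma length_dr (u : Vx b R) (i : ℕ) : (dr i u).1.length = u.1.length - i := List.length_drop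

omit [NeZero b] in
lemma card_Sf (u : Vx b R) : (Sf u).card = u.1.length := by
  classical
  unfold Sf
  rw [Finset.card_image_of_injOn, Finset.card_range]
  intro i hi j hj h
  have h1 := congrArg (fun x : Vx b R => x.1.length) h
  simp only [length_dr] at h1
  rw [Finset.mem_coe, Finset.mem_range] at hi hj
  omega

open Classical in
omit [NeZero b] in
/-- the common ancestor -/
lemma common (u v : Vx b R) :
    ∃ j, j = (Sf u ∩ Sf v).card ∧ j ≤ u.1.length ∧ (dr (u.1.length - j) u).1 <:+ v.1 := by
  obtain ⟨j, hj⟩ : ∃ j, j = (Sf u ∩ Sf v).card := ⟨_, rfl⟩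
  have hju : j ≤ u.1.length := by
    rw [hj, ← card_Sf u]
    exact Finset.card_le_card Finset.inter_subset_left
  refine ⟨j, hj, hju, ?_⟩
  rcases Nat.eq_zero_or_pos j with h0 | h0
  · rw [h0]
    have h1 : (dr (u.1.length - 0) u).1 = [] := by
      rw [← List.length_eq_zero_iff, length_dr]
      omega
    rw [h1]
    exact List.nil_suffix
  · -- an element of the intersection of length at least `j`
    obtain ⟨x, hx, hxl⟩ : ∃ x ∈ Sf u ∩ Sf v, j ≤ x.1.length := by
      by_contra hcon
      push Not at hcon
      have h1 : (Sf u ∩ Sf v).card ≤ (Finset.Ico 1 j).card := by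
        refine Finset.card_le_card_of_injOn (fun x : Vx b R => x.1.length) ?_ ?_
        · intro x hx
          rw [Finset.mem_coe] at hx
          have h2 := (mem_Sf.1 (Finset.mem_inter.1 hx).1).1
          rw [Finset.mem_coe, Finset.mem_Ico]
          exact ⟨List.length_pos_iff.2 h2, hcon x hx⟩
        · intro x hx y hy h
          rw [Finset.mem_coe] at hx hy
          exact Subtype.ext (suffix_unique (mem_Sf.1 (Finset.mem_inter.1 hx).1).2
            (mem_Sf.1 (Finset.mem_inter.1 hy).1).2 h)
      rw [← hj, Nat.card_Ico] at h1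
      omega
    rw [Finset.mem_inter, mem_Sf, mem_Sf] at hx
    have h2 : (dr (x.1.length - j) x).1 <:+ x.1 := List.drop_suffix _ _
    have h3 : (dr (x.1.length - j) x).1 = (dr (u.1.length - j) u).1 := by
      refine suffix_unique (h2.trans hx.1.2) (List.drop_suffix _ _) ?_
      have := hx.1.2.length_le
      show (dr (x.1.length - j) x).1.length = (dr (u.1.length - j) u).1.length
      rw [length_dr, length_dr]
      omega
    rw [← h3]
    exact h2.trans hx.2.2

open Classical in
/-- The pairs of vertices of a level, weighted. -/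
lemma pair_sum (p : ℝ) (hp : 0 < p) (n : ℕ) (u : Vx b R) (hu : u ∈ lev b R n) :
    ∑ v ∈ lev b R n, p ^ (Sf u ∪ Sf v).card ≤
      (lev b R n).card * (∑ j ∈ Finset.range (n + 1), 1 / (p ^ j * (lev b R j).card)) *
        p ^ (2 * n) := by
  have hu' := mem_lev.1 hu
  have h1 : ∀ v ∈ lev b R n, p ^ (Sf u ∪ Sf v).card ≤ ∑ j ∈ Finset.range (n + 1),
      if (dr (n - j) u).1 <:+ v.1 then p ^ (2 * n) / p ^ j else 0 := by
    intro v hv
    obtain ⟨j, hj, hjn, hs⟩ := common u v
    rw [hu'] at hjn hs
    have h2 : (Sf u ∪ Sf v).card + j = 2 * n := by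
      rw [hj, Finset.card_union_add_card_inter, card_Sf, card_Sf, hu', mem_lev.1 hv]
      ring
    have h3 : p ^ (Sf u ∪ Sf v).card = p ^ (2 * n) / p ^ j := by
      rw [← h2, pow_add, mul_div_assoc, div_self (pow_pos hp j).ne', mul_one]
    rw [h3]
    have h4 := Finset.single_le_sum (f := fun j => if (dr (n - j) u).1 <:+ v.1 then
      p ^ (2 * n) / p ^ j else 0) (s := Finset.range (n + 1)) (fun i _ => by
        beta_reduce
        split_ifs
        · positivity
        · exact le_rfl) (Finset.mem_range.2 (Nat.lt_succ_of_le hjn))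
    beta_reduce at h4
    rw [if_pos hs] at h4
    exact h4
  refine (Finset.sum_le_sum h1).trans ?_
  rw [Finset.sum_comm, Finset.mul_sum, Finset.sum_mul]
  refine Finset.sum_le_sum fun j hj => ?_
  rw [← Finset.sum_filter, Finset.sum_const, nsmul_eq_mul]
  have hjn : j ≤ n := Nat.lt_succ_iff.1 (Finset.mem_range.1 hj)
  have hl : (dr (n - j) u).1.length = j := by rw [length_dr, hu']; omega
  have h2 := card_desc (dr (n - j) u) (n := n) (by rw [hl]; exact hjn)
  rw [hl] at h2
  have h3 : ((lev b R n).filter fun v => (dr (n - j) u).1 <:+ v.1).card *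
      ((lev b R j).card : ℝ) = (lev b R n).card := by exact_mod_cast h2
  have hpos : 0 < ((lev b R j).card : ℝ) := by
    have : 0 < (lev b R j).card := by
      rcases Nat.eq_zero_or_pos (lev b R j).card with h0 | h0
      · obtain ⟨w, hw⟩ := exists_level (b := b) (R := R) j
        rw [Finset.card_eq_zero] at h0
        have := mem_lev.2 hw
        rw [h0] at this
        simp at this
      · exact h0
    exact_mod_cast this
  rw [← h3]
  have hpj : 0 < p ^ j := pow_pos hp j
  apply le_of_eq
  field_simp

end Pool.Agent.V11322.SA
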