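import Pool.Agent.V11322.SA.Clus

/-!
# Infinitely many infinite clusters on an interval of parameters
-/

namespace Pool.Agent.V11322.SA

open MeasureTheory ProbabilityTheory Filter
open scoped NNReal ENNReal

variable {b : ℕ} {R : ℕ → Prop} [NeZero b]

/-- There are `k` infinite clusters. -/
def Gk (b : ℕ) [NeZero b] (R : ℕ → Prop) (k : ℕ) : Set ((prodZ (tree b R)).edgeSet → Bool) :=
  {ω | ∃ g : Fin k → ℤ,
    (∀ i, ((opn (prodZ (tree b R)) ω).connectedComponentMk (root, g i)).supp.Infinite) ∧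
    ∀ i j, i ≠ j → ¬ (opn (prodZ (tree b R)) ω).Reachable (root, g i) (root, g j)}

lemma bound (s : ℕ) (hs : 0 < s) (hb : b = s * s) (hR : ∀ j, 4 * cnt R j ≤ j) (p : ℝ≥0)
    (hp : p ≤ 1) (hp0 : 0 < p) (hpb : 16 ≤ (p : ℝ) ^ 4 * (b : ℝ) ^ 3)
    (hr : (p : ℝ) * (2 * s + 2) < 1) (k m L : ℕ) (hm : 1 ≤ m) (hL : 1 ≤ L) :
    (perc (prodZ (tree b R)) p hp).real (Gk b R k)ᶜ ≤ k * (2 / m) +
      ((k * m) * (k * m) : ℕ) * ((p * (2 * s + 2)) ^ L / (1 - p * (2 * s + 2))) := by
  classical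
  set μ := perc (prodZ (tree b R)) p hp with hμ
  set A : ℝ := (p * (2 * s + 2)) ^ L / (1 - p * (2 * s + 2)) with hA
  have hA0 : 0 ≤ A := by
    have h3 : 0 < 1 - (p : ℝ) * (2 * s + 2) := by linarith
    have h4 : 0 ≤ (p : ℝ) := p.2
    positivity
  set hst : ℕ → Finset ℤ := fun i => (Finset.range m).image fun t => ((L * (i * m + t) : ℕ) : ℤ)
    with hhst
  have hcard : ∀ i, (hst i).card = m := by
    intro i
    rw [hhst]
    beta_reduce
    rw [Finset.card_image_of_injOn, Finset.card_range]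
    intro t _ t' _ h
    beta_reduce at h
    have h1 : L * (i * m + t) = L * (i * m + t') := by exact_mod_cast h
    have h2 := Nat.eq_of_mul_eq_mul_left hL h1
    omega
  set B1 : Set ((prodZ (tree b R)).edgeSet → Bool) :=
    ⋃ i ∈ Finset.range k, {ω | ¬ ∃ h ∈ hst i, Up ω h} with hB1
  set B2 : Set ((prodZ (tree b R)).edgeSet → Bool) :=
    ⋃ a ∈ (Finset.range (k * m) ×ˢ Finset.range (k * m)).filter (fun a => a.1 ≠ a.2),
      {ω | (opn (prodZ (tree b R)) ω).Reachable (root, ((L * a.1 : ℕ) : ℤ))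
        (root, ((L * a.2 : ℕ) : ℤ))} with hB2
  have hsub : (Gk b R k)ᶜ ⊆ B1 ∪ B2 := by
    intro ω hω
    by_contra hcon
    rw [Set.mem_union, not_or] at hcon
    obtain ⟨h1, h2⟩ := hcon
    apply hω
    have h3 : ∀ i : Fin k, ∃ t, t < m ∧ Up ω ((L * (i * m + t) : ℕ) : ℤ) := by
      intro i
      by_contra h4
      apply h1
      rw [hB1, Set.mem_iUnion₂]
      refine ⟨i, Finset.mem_range.2 i.2, ?_⟩
      rintro ⟨h, hh, hup⟩
      rw [hhst] at hh
      obtain ⟨t, ht, rfl⟩ := Finset.mem_image.1 hh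
      exact h4 ⟨t, Finset.mem_range.1 ht, hup⟩
    choose t ht hup using h3
    refine ⟨fun i => ((L * (i * m + t i) : ℕ) : ℤ), fun i => up_infinite (hup i), ?_⟩
    intro i j hij hreach
    apply h2
    rw [hB2, Set.mem_iUnion₂]
    have h5 : ∀ i : Fin k, (i : ℕ) * m + t i < k * m := by
      intro i
      have h6 : ((i : ℕ) + 1) * m ≤ k * m := Nat.mul_le_mul_right m i.2
      have := ht i
      nlinarith
    refine ⟨(i * m + t i, j * m + t j), ?_, hreach⟩
    rw [Finset.mem_filter, Finset.mem_product, Finset.mem_range, Finset.mem_range]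
    refine ⟨⟨h5 i, h5 j⟩, ?_⟩
    intro h6
    apply hij
    have h7 : ((i : ℕ) * m + t i) / m = ((j : ℕ) * m + t j) / m := congrArg (· / m) h6
    rw [mul_comm (i : ℕ) m, mul_comm (j : ℕ) m, Nat.mul_add_div (by omega),
      Nat.mul_add_div (by omega), Nat.div_eq_of_lt (ht i), Nat.div_eq_of_lt (ht j)] at h7
    exact Fin.ext (by omega)
  have hb1 : μ.real B1 ≤ k * (2 / m) := by
    refine (measureReal_biUnion_finset_le _ _).trans ?_
    have h1 : ∀ i ∈ Finset.range k, μ.real {ω | ¬ ∃ h ∈ hst i, Up ω h} ≤ 2 / m := by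
      intro i _
      have h2 := up_le p hp hp0 hpb hR (hst i) (Finset.card_pos.1 (by rw [hcard]; omega))
      rw [hcard] at h2
      exact h2
    refine (Finset.sum_le_sum h1).trans ?_
    rw [Finset.sum_const, Finset.card_range, nsmul_eq_mul]
  have hb2 : μ.real B2 ≤ ((k * m) * (k * m) : ℕ) * A := by
    refine (measureReal_biUnion_finset_le _ _).trans ?_
    have h1 : ∀ a ∈ (Finset.range (k * m) ×ˢ Finset.range (k * m)).filter (fun a => a.1 ≠ a.2),
        μ.real {ω | (opn (prodZ (tree b R)) ω).Reachable (root, ((L * a.1 : ℕ) : ℤ))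
          (root, ((L * a.2 : ℕ) : ℤ))} ≤ A := by
      rintro ⟨a, a'⟩ ha
      rw [Finset.mem_filter] at ha
      have hne : a ≠ a' := ha.2
      refine far_le s hs hb p hp hr _ _ L ?_
      push_cast
      rw [← mul_sub, abs_mul]
      have h2 : 1 ≤ |(a : ℤ) - a'| := by
        have : (a : ℤ) - a' ≠ 0 := by omega
        exact Int.one_le_abs this
      have h3 : |(L : ℤ)| = L := abs_of_nonneg (by positivity)
      rw [h3]
      nlinarith
    refine (Finset.sum_le_sum h1).trans ?_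
    rw [Finset.sum_const, nsmul_eq_mul]
    refine mul_le_mul_of_nonneg_right ?_ hA0
    have h2 := Finset.card_filter_le (Finset.range (k * m) ×ˢ Finset.range (k * m))
      (fun a => a.1 ≠ a.2)
    rw [Finset.card_product, Finset.card_range] at h2
    exact_mod_cast h2
  calc μ.real (Gk b R k)ᶜ ≤ μ.real (B1 ∪ B2) := measureReal_mono hsub
    _ ≤ μ.real B1 + μ.real B2 := measureReal_union_le _ _
    _ ≤ _ := add_le_add hb1 hb2

/-- **Infinitely many infinite clusters.** -/
theorem many (s : ℕ) (hs : 0 < s) (hb : b = s * s) (hR : ∀ j, 4 * cnt R j ≤ j) (p : ℝ≥0)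
    (hp : p ≤ 1) (hp0 : 0 < p) (hpb : 16 ≤ (p : ℝ) ^ 4 * (b : ℝ) ^ 3)
    (hr : (p : ℝ) * (2 * s + 2) < 1) :
    ∀ᵐ ω ∂(perc (prodZ (tree b R)) p hp),
      {C : (opn (prodZ (tree b R)) ω).ConnectedComponent | C.supp.Infinite}.Infinite := by
  have h0 : ∀ k, ∀ᵐ ω ∂(perc (prodZ (tree b R)) p hp), ω ∈ Gk b R k := by
    intro k
    have h1 : (perc (prodZ (tree b R)) p hp).real (Gk b R k)ᶜ = 0 := by
      refine le_antisymm (le_of_forall_pos_le_add fun δ hδ => ?_) measureReal_nonneg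
      rw [zero_add]
      obtain ⟨m, hm⟩ := exists_nat_ge (4 * k / δ + 1)
      have hm1 : 1 ≤ m := by
        have : (1 : ℝ) ≤ m := by
          have : 0 ≤ 4 * (k : ℝ) / δ := by positivity
          linarith
        exact_mod_cast this
      have hm0 : (0 : ℝ) < m := by exact_mod_cast hm1
      have h2 : (k : ℝ) * (2 / m) ≤ δ / 2 := by
        have h3 : 4 * (k : ℝ) / δ ≤ m := by linarith
        rw [div_le_iff₀ hδ] at h3
        rw [← mul_div_assoc, div_le_iff₀ hm0]
        linarith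
      have hr0 : 0 ≤ (p : ℝ) * (2 * s + 2) := mul_nonneg p.2 (by positivity)
      have h4 : Tendsto (fun L : ℕ => (((k * m) * (k * m) : ℕ) : ℝ) *
          ((p * (2 * s + 2)) ^ L / (1 - p * (2 * s + 2)))) atTop (nhds 0) := by
        have := ((tendsto_pow_atTop_nhds_zero_of_lt_one hr0 hr).div_const
          (1 - (p : ℝ) * (2 * s + 2))).const_mul (((k * m) * (k * m) : ℕ) : ℝ)
        simpa using this
      obtain ⟨L, hL1, hL2⟩ := ((h4.eventually_le_const (half_pos hδ)).and
        (eventually_ge_atTop 1)).exists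
      have h5 := bound s hs hb hR p hp hp0 hpb hr k m L hm1 hL2
      linarith
    rw [measureReal_eq_zero_iff] at h1
    exact h1
  filter_upwards [ae_all_iff.2 h0] with ω hω
  intro hfin
  obtain ⟨g, hg1, hg2⟩ := hω (hfin.toFinset.card + 1)
  have h1 : Fintype.card (Fin (hfin.toFinset.card + 1)) ≤ hfin.toFinset.card := by
    rw [← Finset.card_univ]
    refine Finset.card_le_card_of_injOn
      (fun i => (opn (prodZ (tree b R)) ω).connectedComponentMk (root, g i)) ?_ ?_
    · intro i _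
      rw [Set.Finite.coe_toFinset]
      exact hg1 i
    · intro i _ j _ hij
      by_contra hne
      exact hg2 i j hne (SimpleGraph.ConnectedComponent.eq.1 hij)
  rw [Fintype.card_fin] at h1
  omega

/-! ### The set of stretched levels -/

/-- The stretched levels: runs of length `k` at `16 ^ k`. -/
def Run (t : ℕ) : Prop := ∃ k : ℕ, 16 ^ k ≤ t ∧ t < 16 ^ k + k

lemma run_long (k n₀ : ℕ) : ∃ T, n₀ ≤ T ∧ ∀ t, T ≤ t → t < T + k → Run t := by
  refine ⟨16 ^ (k + n₀), ?_, fun t h1 h2 => ⟨k + n₀, h1, by omega⟩⟩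
  have : k + n₀ < 16 ^ (k + n₀) := Nat.lt_pow_self (by norm_num)
  omega

lemma poly_le (K : ℕ) : 2 * (K * (K + 1)) ≤ 16 ^ K := by
  induction K with
  | zero => norm_num
  | succ K ih =>
    rw [pow_succ]
    have h1 : 1 ≤ 16 ^ K := Nat.one_le_pow _ _ (by norm_num)
    nlinarith

lemma run_few (j : ℕ) : 4 * cnt Run j ≤ j := by
  classical
  unfold cnt
  rcases Nat.eq_zero_or_pos j with rfl | hj
  · simp
  obtain ⟨K, hK⟩ : ∃ K, K = Nat.log 16 j := ⟨_, rfl⟩
  have hKj : 16 ^ K ≤ j := by rw [hK]; exact Nat.pow_log_le_self 16 (by omega)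
  have h1 : (Finset.range j).filter Run ⊆
      (Finset.range (K + 1)).biUnion fun k => Finset.Ico (16 ^ k) (16 ^ k + k) := by
    intro t ht
    rw [Finset.mem_filter, Finset.mem_range] at ht
    obtain ⟨ht1, k, hk1, hk2⟩ := ht
    rw [Finset.mem_biUnion]
    refine ⟨k, Finset.mem_range.2 ?_, Finset.mem_Ico.2 ⟨hk1, hk2⟩⟩
    have h2 : k ≤ Nat.log 16 j := Nat.le_log_of_pow_le (by norm_num) (by omega)
    omega
  have h2 : ((Finset.range j).filter Run).card ≤ ∑ k ∈ Finset.range (K + 1), k := by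
    refine (Finset.card_le_card h1).trans (Finset.card_biUnion_le.trans ?_)
    refine Finset.sum_le_sum fun k _ => ?_
    rw [Nat.card_Ico]; omega
  have h3 : (∑ k ∈ Finset.range (K + 1), k) * 2 = (K + 1) * K := by
    rw [Finset.sum_range_id_mul_two]; rfl
  have h4 := poly_le K
  nlinarith

/-- The main theorem. -/
theorem main : (tree 10000 Run).Connected ∧ (∀ v, ((tree 10000 Run).neighborSet v).Finite) ∧
    Infinite (Vx 10000 Run) ∧ StronglyAmenable (tree 10000 Run) ∧
    ∀ (p : ℝ≥0) (hp : p ≤ 1), 1 / 500 ≤ p → p ≤ 1 / 203 →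
      ∀ᵐ ω ∂(perc (prodZ (tree 10000 Run)) p hp),
        {C : (opn (prodZ (tree 10000 Run)) ω).ConnectedComponent | C.supp.Infinite}.Infinite := by
  refine ⟨tree_connected, tree_locfin, tree_infinite, tree_sa run_long, fun p hp h1 h2 => ?_⟩
  have h1' : (1 / 500 : ℝ) ≤ p := by exact_mod_cast h1
  have h2' : (p : ℝ) ≤ 1 / 203 := by exact_mod_cast h2
  refine many 100 (by norm_num) (by norm_num) run_few p hp ?_ ?_ ?_
  · have : (0 : ℝ) < p := lt_of_lt_of_le (by norm_num) h1'
    exact_mod_cast this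
  · have h3 : (1 / 500 : ℝ) ^ 4 ≤ (p : ℝ) ^ 4 := pow_le_pow_left₀ (by norm_num) h1' 4
    calc (16 : ℝ) = (1 / 500) ^ 4 * ((10000 : ℕ) : ℝ) ^ 3 := by norm_num
      _ ≤ _ := mul_le_mul_of_nonneg_right h3 (by positivity)
  · push_cast
    linarith

end Pool.Agent.V11322.SA
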