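import Mathlib

/-!
# Spherically symmetric trees with long stretches, and strong amenability
-/

namespace Pool.Agent.V11322.SA

/-- The edges of the subgraph `H` with exactly one endpoint in `K`. -/
def bdry {V : Type} {G : SimpleGraph V} (H : G.Subgraph) (K : Set V) : Set (Sym2 V) :=
  {e | e ∈ H.edgeSet ∧ ∃ x ∈ K, ∃ y, y ∉ K ∧ e = s(x, y)}

/-- The infimum of `|∂ K| / |K|` over the finite nonempty sets `K` of vertices of `H` is zero. -/
def Amenable {V : Type} {G : SimpleGraph V} (H : G.Subgraph) : Prop :=
  ∀ ε : ℝ, 0 < ε → ∃ K : Finset V, K.Nonempty ∧ (K : Set V) ⊆ H.verts ∧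
    (bdry H (K : Set V)).Finite ∧ ((bdry H (K : Set V)).ncard : ℝ) ≤ ε * K.card

/-- No subgraph is nonamenable. -/
def StronglyAmenable {V : Type} (G : SimpleGraph V) : Prop :=
  ∀ H : G.Subgraph, H.verts.Nonempty → Amenable H

variable (b : ℕ) (R : ℕ → Prop)

/-- Allowed words: the digits read at the levels in `R` vanish. -/
def Ok : List (Fin b) → Prop
  | [] => True
  | c :: l => Ok l ∧ (R l.length → (c : ℕ) = 0)

/-- The vertices of the tree. -/
abbrev Vx : Type := {l : List (Fin b) // Ok b R l}

variable {b R}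

lemma Ok.suffix {l l' : List (Fin b)} (h : Ok b R l) (h' : l' <:+ l) : Ok b R l' := by
  induction l with
  | nil =>
    rw [List.suffix_nil] at h'
    rw [h']
    exact h
  | cons c l ih =>
    rcases List.suffix_cons_iff.1 h' with h1 | h1
    · rw [h1]; exact h
    · exact ih h.1 h1

variable (b R)

/-- The tree: a vertex on a level in `R` has one child, the other vertices have `b`. -/
def tree : SimpleGraph (Vx b R) where
  Adj u v := (∃ c, u.1 = c :: v.1) ∨ ∃ c, v.1 = c :: u.1
  symm := ⟨fun _ _ h => h.symm⟩
  loopless := ⟨by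
    rintro u (⟨c, h⟩ | ⟨c, h⟩)
    · exact List.cons_ne_self c u.1 h.symm
    · exact List.cons_ne_self c u.1 h.symm⟩

variable {b R}

lemma tree_adj {u v : Vx b R} :
    (tree b R).Adj u v ↔ (∃ c, u.1 = c :: v.1) ∨ ∃ c, v.1 = c :: u.1 := Iff.rfl

/-- The root. -/
def root : Vx b R := ⟨[], trivial⟩

/-- The ancestor `i` levels below. -/
def dr (i : ℕ) (u : Vx b R) : Vx b R := ⟨u.1.drop i, u.2.suffix (List.drop_suffix i u.1)⟩

/-- The child. -/
noncomputable def chd [NeZero b] (u : Vx b R) (c : Fin b) : Vx b R :=
  open Classical in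
  if h : R u.1.length → (c : ℕ) = 0 then ⟨c :: u.1, u.2, h⟩ else ⟨0 :: u.1, u.2, fun _ => rfl⟩

lemma chd_adj [NeZero b] (u : Vx b R) (c : Fin b) : (tree b R).Adj (chd u c) u := by
  left
  unfold chd
  split_ifs with h
  · exact ⟨c, rfl⟩
  · exact ⟨0, rfl⟩

lemma reach_root (u : Vx b R) : (tree b R).Reachable root u := by
  obtain ⟨l, hl⟩ := u
  induction l with
  | nil => exact SimpleGraph.Reachable.refl _
  | cons c l ih =>
    refine (ih hl.1).trans (SimpleGraph.Adj.reachable ?_)
    exact Or.inr ⟨c, rfl⟩

lemma tree_connected : (tree b R).Connected := by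
  have : Nonempty (Vx b R) := ⟨root⟩
  exact ⟨fun u v => (reach_root u).symm.trans (reach_root v)⟩

lemma finite_level (n : ℕ) : {u : Vx b R | u.1.length ≤ n}.Finite := by
  have h : {l : List (Fin b) | l.length ≤ n}.Finite := List.finite_length_le _ _
  exact Set.Finite.of_finite_image (h.subset (by
    rintro _ ⟨u, hu, rfl⟩
    exact hu)) (Set.injOn_of_injective Subtype.val_injective)

lemma length_adj {u v : Vx b R} (h : (tree b R).Adj u v) :
    v.1.length ≤ u.1.length + 1 ∧ u.1.length ≤ v.1.length + 1 := by
  rcases h with ⟨c, h⟩ | ⟨c, h⟩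
  · rw [h, List.length_cons]; omega
  · rw [h, List.length_cons]; omega

lemma tree_locfin (u : Vx b R) : ((tree b R).neighborSet u).Finite :=
  (finite_level (u.1.length + 1)).subset fun v hv => (length_adj hv).1

lemma exists_level [NeZero b] (n : ℕ) : ∃ u : Vx b R, u.1.length = n := by
  induction n with
  | zero => exact ⟨root, rfl⟩
  | succ n ih =>
    obtain ⟨u, hu⟩ := ih
    refine ⟨chd u 0, ?_⟩
    unfold chd
    split_ifs <;> simp [hu]

lemma tree_infinite [NeZero b] : Infinite (Vx b R) := by
  have h : Function.Surjective fun u : Vx b R => u.1.length := fun n => exists_level n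
  exact Infinite.of_surjective _ h

/-- A walk to `w` passes through the ancestors of `w` which are not ancestors of `v`. -/
lemma pass {S : SimpleGraph (Vx b R)} (hS : S ≤ tree b R) {v w : Vx b R} (q : S.Walk v w)
    (u : Vx b R) (hu : u.1 <:+ w.1) (hv : ¬ u.1 <:+ v.1) : u ∈ q.support := by
  induction q with
  | nil => exact absurd hu hv
  | @cons v v' w h q ih =>
    rw [SimpleGraph.Walk.support_cons]
    by_cases h1 : u.1 <:+ v'.1
    · rcases hS h with ⟨c, h2⟩ | ⟨c, h2⟩
      · exact absurd (h1.trans (h2 ▸ List.suffix_cons c v'.1)) hv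
      · rw [h2, List.suffix_cons_iff] at h1
        rcases h1 with h1 | h1
        · have : u = v' := Subtype.ext (h1.trans h2.symm)
          rw [this]
          exact List.mem_cons_of_mem _ q.start_mem_support
        · exact absurd h1 hv
    · exact List.mem_cons_of_mem _ (ih hu h1)

lemma suffix_unique {l l₁ l₂ : List (Fin b)} (h1 : l₁ <:+ l) (h2 : l₂ <:+ l)
    (h : l₁.length = l₂.length) : l₁ = l₂ := by
  rw [List.suffix_iff_eq_drop] at h1 h2
  rw [h1, h2, h]

/-- The ancestors of `w` on the levels `T, ..., T + k - 1` when all these levels are in `R`. -/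
lemma stretch (H : (tree b R).Subgraph) (w : Vx b R) (T k : ℕ) (hT : 1 ≤ T)
    (hw : T + k ≤ w.1.length) (hR : ∀ t, T ≤ t → t < T + k → R t) (K : Finset (Vx b R))
    (hK : ∀ u, u ∈ K ↔ u.1 <:+ w.1 ∧ T ≤ u.1.length ∧ u.1.length < T + k) :
    (bdry H (K : Set (Vx b R))).Finite ∧ (bdry H (K : Set (Vx b R))).ncard ≤ 2 := by
  classical
  set A : ℕ → Vx b R := fun t => dr (w.1.length - t) w with hA
  have hAs : ∀ t, (A t).1 <:+ w.1 := fun t => List.drop_suffix _ _
  have hAl : ∀ t, t ≤ w.1.length → (A t).1.length = t := by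
    intro t ht
    show (w.1.drop (w.1.length - t)).length = t
    rw [List.length_drop]
    omega
  have huniq : ∀ u : Vx b R, u.1 <:+ w.1 → ∀ t, t ≤ w.1.length → u.1.length = t → u = A t := by
    intro u hu t ht h
    exact Subtype.ext (suffix_unique hu (hAs t) (h.trans (hAl t ht).symm))
  have hsub : bdry H (K : Set (Vx b R)) ⊆
      (({s(A T, A (T - 1)), s(A (T + k - 1), A (T + k))} : Finset (Sym2 (Vx b R))) :
        Set (Sym2 (Vx b R))) := by
    rintro e ⟨he, x, hx, y, hy, rfl⟩
    rw [Finset.mem_coe, hK] at hx hy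
    obtain ⟨hx1, hx2, hx3⟩ := hx
    have hadj : (tree b R).Adj x y := H.adj_sub he
    simp only [Finset.coe_insert, Finset.coe_singleton, Set.mem_insert_iff,
      Set.mem_singleton_iff]
    rcases hadj with ⟨c, h⟩ | ⟨c, h⟩
    · -- `y` is the parent of `x`
      left
      have hy1 : y.1 <:+ w.1 := (h ▸ List.suffix_cons c y.1 : y.1 <:+ x.1).trans hx1
      have hl : x.1.length = y.1.length + 1 := by rw [h, List.length_cons]
      have h2 : y.1.length < T := by
        by_contra h3
        exact hy ⟨hy1, not_lt.1 h3, by omega⟩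
      rw [huniq x hx1 T (by omega) (by omega), huniq y hy1 (T - 1) (by omega) (by omega)]
    · -- `y` is the child of `x`
      right
      have hl : y.1.length = x.1.length + 1 := by rw [h, List.length_cons]
      have hR1 : R x.1.length := hR _ hx2 hx3
      have hc : (c : ℕ) = 0 := by
        have h3 := y.2
        rw [h] at h3
        exact h3.2 hR1
      -- the ancestor of `w` one level above `x`
      obtain ⟨z, hz⟩ : ∃ z, z = A (x.1.length + 1) := ⟨_, rfl⟩
      have hzl : z.1.length = x.1.length + 1 := by rw [hz]; exact hAl _ (by omega)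
      have hzs : z.1 <:+ w.1 := by rw [hz]; exact hAs _
      obtain ⟨c', l', hcl⟩ : ∃ c' l', z.1 = c' :: l' := by
        rcases h4 : z.1 with _ | ⟨c', l'⟩
        · rw [h4] at hzl; simp at hzl
        · exact ⟨c', l', rfl⟩
      have hl' : l'.length = x.1.length := by
        rw [hcl, List.length_cons] at hzl; omega
      have hl's : l' <:+ w.1 := (hcl ▸ List.suffix_cons c' l' : l' <:+ z.1).trans hzs
      have hx' : l' = x.1 := suffix_unique hl's hx1 hl'
      have hc' : (c' : ℕ) = 0 := by
        have h3 := z.2
        rw [hcl] at h3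
        exact h3.2 (by rw [hl']; exact hR1)
      have hyz : y = z := by
        apply Subtype.ext
        rw [h, hcl, hx']
        congr 1
        exact Fin.ext (hc.trans hc'.symm)
      have hys : y.1 <:+ w.1 := hyz ▸ hzs
      have h5 : T + k ≤ y.1.length := by
        by_contra h6
        exact hy ⟨hys, by omega, by omega⟩
      rw [huniq x hx1 (T + k - 1) (by omega) (by omega), huniq y hys (T + k) hw (by omega)]
  refine ⟨(Finset.finite_toSet _).subset hsub, ?_⟩
  refine (Set.ncard_le_ncard hsub (Finset.finite_toSet _)).trans ?_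
  rw [Set.ncard_coe_finset]
  exact Finset.card_le_two

/-- The tree is strongly amenable if `R` contains arbitrarily long intervals. -/
theorem tree_sa (hR : ∀ k n₀ : ℕ, ∃ T, n₀ ≤ T ∧ ∀ t, T ≤ t → t < T + k → R t) :
    StronglyAmenable (tree b R) := by
  classical
  rintro H ⟨v, hv⟩ ε hε
  set C : Set (Vx b R) := {w | H.spanningCoe.Reachable v w} with hC
  have hCv : C ⊆ H.verts := by
    intro w hw
    obtain ⟨q⟩ := (hw : H.spanningCoe.Reachable v w).symm
    cases q with
    | nil => exact hv
    | cons h q => exact H.edge_vert h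
  by_cases hfin : C.Finite
  · refine ⟨hfin.toFinset, ⟨v, by simp [hC]⟩, by simpa using hCv, ?_⟩
    have h0 : bdry H (hfin.toFinset : Set (Vx b R)) = ∅ := by
      rw [Set.eq_empty_iff_forall_notMem]
      rintro e ⟨he, x, hx, y, hy, rfl⟩
      rw [Set.Finite.coe_toFinset] at hx hy
      refine hy ?_
      have h1 : H.spanningCoe.Adj x y := he
      exact (hx : H.spanningCoe.Reachable v x).trans h1.reachable
    rw [h0]
    refine ⟨Set.finite_empty, ?_⟩
    rw [Set.ncard_empty, Nat.cast_zero]
    positivity
  · obtain ⟨k, hk⟩ := exists_nat_ge (2 / ε)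
    obtain ⟨T, hT, hRT⟩ := hR (k + 1) (v.1.length + 1)
    obtain ⟨w, hw, hwl⟩ : ∃ w ∈ C, T + (k + 1) ≤ w.1.length := by
      by_contra hcon
      push Not at hcon
      refine hfin ((finite_level (T + (k + 1))).subset fun w hw => ?_)
      exact (hcon w hw).le
    obtain ⟨q⟩ := (hw : H.spanningCoe.Reachable v w)
    set K : Finset (Vx b R) := (Finset.range (k + 1)).image fun i =>
      dr (w.1.length - (T + i)) w with hK
    have hlen : ∀ i, i < k + 1 → (w.1.drop (w.1.length - (T + i))).length = T + i := by
      intro i hi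
      rw [List.length_drop]; omega
    have hKm : ∀ u, u ∈ K ↔ u.1 <:+ w.1 ∧ T ≤ u.1.length ∧ u.1.length < T + (k + 1) := by
      intro u
      rw [hK, Finset.mem_image]
      constructor
      · rintro ⟨i, hi, rfl⟩
        rw [Finset.mem_range] at hi
        have := hlen i hi
        refine ⟨List.drop_suffix _ _, ?_, ?_⟩
        · show T ≤ (w.1.drop (w.1.length - (T + i))).length
          omega
        · show (w.1.drop (w.1.length - (T + i))).length < _
          omega
      · rintro ⟨h1, h2, h3⟩
        refine ⟨u.1.length - T, Finset.mem_range.2 (by omega), ?_⟩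
        apply Subtype.ext
        refine suffix_unique (List.drop_suffix _ _) h1 ?_
        show (w.1.drop (w.1.length - (T + (u.1.length - T)))).length = _
        rw [hlen _ (by omega)]
        omega
    have hKc : K.card = k + 1 := by
      rw [hK, Finset.card_image_of_injOn, Finset.card_range]
      intro i hi j hj hij
      have h1 : (w.1.drop (w.1.length - (T + i))).length =
          (w.1.drop (w.1.length - (T + j))).length :=
        congrArg (fun u : Vx b R => u.1.length) hij
      rw [hlen i (Finset.mem_range.1 hi), hlen j (Finset.mem_range.1 hj)] at h1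
      omega
    obtain ⟨h1, h2⟩ := stretch H w T (k + 1) (by omega) hwl hRT K hKm
    refine ⟨K, Finset.card_pos.1 (by omega), fun u hu => ?_, h1, ?_⟩
    · have hu' := (hKm u).1 hu
      have h3 : u ∈ q.support := pass H.spanningCoe_le q u hu'.1 fun h4 => by
        have := h4.length_le
        omega
      exact hCv (q.takeUntil u h3).reachable
    · have h3 : ((bdry H (K : Set (Vx b R))).ncard : ℝ) ≤ 2 := by exact_mod_cast h2
      refine h3.trans ?_
      rw [hKc]
      have h4 : 2 ≤ ε * k := by
        rw [div_le_iff₀ hε] at hk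
        linarith
      push_cast
      nlinarith

end Pool.Agent.V11322.SA
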